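import Pool.Agent.W_448pb_h63.PbC
import Pool.Agent.W_448pb_h63.PcA

/-!
Components without a heavy join at the window j (MP_448cb3_co, case B): free pairs of unmatched
elements.
-/

namespace Pool.Agent.GaussPoset.Win.K2

set_option linter.unusedSectionVars false

open Finset I2

universe u

variable {P : Type u} [Fintype P] [PartialOrder P] [DecidableEq P] {r i : ℕ} {e : P → ℕ}

variable {ι : Type*} [DecidableEq ι] {κ : P → ι} {K : Finset P} {psi : P → P}

/-- `k`, `k'` are the only unmatched elements of their label, one on each side of the window -/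
structure Pr (i : ℕ) (κ : P → ι) (K : Finset P) (k k' : P) : Prop where
  hk : k ∈ dbL P i
  kK : k ∈ K
  hk' : k' ∈ dbU P i
  kK' : k' ∈ K
  lab : κ k = κ k'
  only : ∀ x ∈ K, κ x = κ k → x = k ∨ x = k'

/-- the unmatched elements of the label `a` all touch `F`, or they are two elements away from `F`,
one on each side of the window -/
def Fr (i : ℕ) (κ : P → ι) (K : Finset P) (a : ι) (F : Finset P) : Prop :=
  (∀ k ∈ K, κ k = a → ¬ Disjoint (ns i k) F) ∨
    ∃ k k', Pr i κ K k k' ∧ κ k = a ∧ Disjoint (ns i k) F ∧ Disjoint (ns i k') F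

end Pool.Agent.GaussPoset.Win.K2
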