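import Pool.Agent.W_448L1_h63.LaA

/-!
Components without a heavy join at the window j (MP_448cb3_co, case B): the exchange of the labels
of a free pair of unmatched elements.
-/

namespace Pool.Agent.GaussPoset.Win.K2

set_option linter.unusedSectionVars false

open Finset I2

universe u

variable {P : Type u} [Fintype P] [PartialOrder P] [DecidableEq P] {r i : ℕ} {e : P → ℕ}

/-- the labels of the lower element `y` and the upper element `tau y` can be exchanged -/
structure SOK (i : ℕ) (tau : P → P) (e : P → ℕ) (y : P) : Prop where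
  ly : lev y = i + 1
  lw : lev (tau y) + 1 = i
  cy : (uc y).card = 2
  cx : (dc (tau y)).card = 2
  one : (e y = 1 ∧ e (tau y) = 0) ∨ (e y = 0 ∧ e (tau y) = 1)
  lo : ∀ z ∈ dc y, e z = 0
  up : ∀ u ∈ uc (tau y), e u = 0
  s0 : ∀ x ∈ uc y, e x = 0
  s1 : ∀ x ∈ dc (tau y), e x = 0
  lo' : ∀ x, (x ∈ uc y ∨ x ∈ dc (tau y)) → ∀ z ∈ dc x, z ≠ y → e z = 0
  up' : ∀ x, (x ∈ uc y ∨ x ∈ dc (tau y)) → ∀ u ∈ uc x, u ≠ tau y → e u = 0

section stat

variable {tau : P → P} {y : P} (hy : SOK i tau e y)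

lemma SOK.sw_lev (hy : SOK i tau e y) {x : P} (h1 : lev x ≠ i + 1) (h2 : lev x + 1 ≠ i)
    (f : P → ℕ) : sw tau y f x = f x := by
  apply sw_ne
  · rintro rfl
    exact h1 hy.ly
  · rintro rfl
    exact h2 hy.lw

lemma SOK.sites (H : Gr P r) (hy : SOK i tau e y) {x : P} (hx : x ∈ uc y ∨ x ∈ dc (tau y)) :
    lev x = i ∧ e x = 0 := by
  rcases hx with h | h
  · have h1 := lev_uc H h
    have := hy.ly
    exact ⟨by omega, hy.s0 x h⟩
  · have h1 := lev_dc H h
    have := hy.lw
    exact ⟨by omega, hy.s1 x h⟩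

/-- the pair is still free after the exchange -/
lemma SOK.self (H : Gr P r) (hy : SOK i tau e y) : SOK i tau (sw tau y e) y := by
  have l1 := hy.ly
  have l2 := hy.lw
  have far : ∀ x, lev x ≠ i + 1 → lev x + 1 ≠ i → sw tau y e x = e x := fun x h1 h2 =>
    hy.sw_lev h1 h2 e
  refine ⟨hy.ly, hy.lw, hy.cy, hy.cx, ?_, ?_, ?_, ?_, ?_, ?_, ?_⟩
  · rw [sw_y, sw_psi]
    rcases hy.one with h | h
    · exact Or.inr ⟨h.2, h.1⟩
    · exact Or.inl ⟨h.2, h.1⟩
  · intro z hz
    have := lev_dc H hz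
    rw [far z (by omega) (by omega)]
    exact hy.lo z hz
  · intro z hz
    have := lev_uc H hz
    rw [far z (by omega) (by omega)]
    exact hy.up z hz
  · intro z hz
    have := lev_uc H hz
    rw [far z (by omega) (by omega)]
    exact hy.s0 z hz
  · intro z hz
    have := lev_dc H hz
    rw [far z (by omega) (by omega)]
    exact hy.s1 z hz
  · intro x hx z hz hne
    have h1 := (hy.sites H hx).1
    have h2 := lev_dc H hz
    rw [sw_ne e hne (by rintro rfl; omega)]
    exact hy.lo' x hx z hz hne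
  · intro x hx z hz hne
    have h1 := (hy.sites H hx).1
    have h2 := lev_uc H hz
    rw [sw_ne e (by rintro rfl; omega) hne]
    exact hy.up' x hx z hz hne

variable (H : Gr P r) (h1 : e y = 1)
include hy H h1

omit H in
lemma SOK.psi0 : e (tau y) = 0 := by
  rcases hy.one with h | h <;> omega

lemma SOK.FD_sw {z : P} (hz : i < lev z) : FD (sw tau y e) z ↔ FD e z := by
  have hl := hy.ly
  have hp := hy.lw
  have key : ∀ z', z' ⋖ z → sw tau y e z' = e z' := by
    intro z' hz'
    have := lev_uc H (mem_uc.2 hz')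
    exact hy.sw_lev (by omega) (by omega) e
  by_cases h : z = y
  · subst h
    constructor
    · rintro ⟨z', hz', hlt⟩
      rw [key z' hz', hy.lo z' (mem_dc.2 hz')] at hlt
      omega
    · rintro ⟨z', hz', hlt⟩
      rw [hy.lo z' (mem_dc.2 hz')] at hlt
      omega
  · have h2 : sw tau y e z = e z := sw_ne e h (by rintro rfl; omega)
    constructor
    · rintro ⟨z', hz', hlt⟩
      exact ⟨z', hz', by rwa [key z' hz', h2] at hlt⟩
    · rintro ⟨z', hz', hlt⟩
      exact ⟨z', hz', by rwa [key z' hz', h2]⟩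

lemma SOK.GU_sw {z : P} (hz : i < lev z) (hne : z ≠ y) : GU (sw tau y e) z ↔ GU e z := by
  have hl := hy.ly
  have hp := hy.lw
  have h2 : sw tau y e z = e z := sw_ne e hne (by rintro rfl; omega)
  by_cases h : y ∈ uc z
  · have h3 : e z = 0 := hy.lo z (mem_dc.2 (mem_uc.1 h))
    constructor
    · intro _
      exact ⟨y, mem_uc.1 h, by omega⟩
    · intro _
      exact ⟨y, mem_uc.1 h, by rw [h2]; omega⟩
  · have key : ∀ a, z ⋖ a → sw tau y e a = e a := by
      intro a ha
      have := lev_uc H (mem_uc.2 ha)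
      exact sw_ne e (by rintro rfl; exact h (mem_uc.2 ha)) (by rintro rfl; omega)
    constructor
    · rintro ⟨a, ha, hle⟩
      exact ⟨a, ha, by rwa [h2, key a ha] at hle⟩
    · rintro ⟨a, ha, hle⟩
      exact ⟨a, ha, by rwa [h2, key a ha]⟩

lemma SOK.FU_sw {z : P} (hz : lev z < i) : FU (sw tau y e) z ↔ FU e z := by
  have hl := hy.ly
  have hp := hy.lw
  have key : ∀ z', z ⋖ z' → sw tau y e z' = e z' := by
    intro z' hz'
    have := lev_uc H (mem_uc.2 hz')
    exact hy.sw_lev (by omega) (by omega) e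
  by_cases h : z = tau y
  · subst h
    constructor
    · rintro ⟨z', hz', hlt⟩
      rw [key z' hz', hy.up z' (mem_uc.2 hz')] at hlt
      omega
    · rintro ⟨z', hz', hlt⟩
      rw [hy.up z' (mem_uc.2 hz')] at hlt
      omega
  · have h2 : sw tau y e z = e z := sw_ne e (by rintro rfl; omega) h
    constructor
    · rintro ⟨z', hz', hlt⟩
      exact ⟨z', hz', by rwa [key z' hz', h2] at hlt⟩
    · rintro ⟨z', hz', hlt⟩
      exact ⟨z', hz', by rwa [key z' hz', h2]⟩

lemma SOK.GD_sw {z : P} (hz : lev z < i) (hne : z ≠ tau y) : GD (sw tau y e) z ↔ GD e z := by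
  have hl := hy.ly
  have hp := hy.lw
  have h2 : sw tau y e z = e z := sw_ne e (by rintro rfl; omega) hne
  by_cases h : tau y ∈ dc z
  · have h3 : e z = 0 := hy.up z (mem_uc.2 (mem_dc.1 h))
    constructor
    · intro _
      exact ⟨tau y, mem_dc.1 h, by omega⟩
    · intro _
      exact ⟨tau y, mem_dc.1 h, by rw [h2]; omega⟩
  · have key : ∀ a, a ⋖ z → sw tau y e a = e a := by
      intro a ha
      have := lev_uc H (mem_uc.2 ha)
      exact sw_ne e (by rintro rfl; omega) (by rintro rfl; exact h (mem_dc.2 ha))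
    constructor
    · rintro ⟨a, ha, hle⟩
      exact ⟨a, ha, by rwa [h2, key a ha] at hle⟩
    · rintro ⟨a, ha, hle⟩
      exact ⟨a, ha, by rwa [h2, key a ha]⟩

omit H in
lemma SOK.not_FD_y : ¬ FD e y := by
  rintro ⟨z', hz', hlt⟩
  rw [hy.lo z' (mem_dc.2 hz')] at hlt
  omega

omit H in
lemma SOK.not_GU_y : ¬ GU e y := by
  rintro ⟨a, ha, hle⟩
  have := hy.s0 a (mem_uc.2 ha)
  omega

omit H in
lemma SOK.GU_sw_y : GU (sw tau y e) y := by
  have hc := hy.cy
  have h2 : (uc y).Nonempty := by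
    rw [← card_pos]
    omega
  obtain ⟨a, ha⟩ := h2
  refine ⟨a, mem_uc.1 ha, ?_⟩
  rw [sw_y, hy.psi0 h1]
  exact Nat.zero_le _

lemma SOK.not_FU_psi : ¬ FU (sw tau y e) (tau y) := by
  have hp := hy.lw
  rintro ⟨z', hz', hlt⟩
  have := lev_uc H (mem_uc.2 hz')
  have h2 := hy.sw_lev (x := z') (by omega) (by omega) e
  rw [h2, hy.up z' (mem_uc.2 hz')] at hlt
  omega

omit H in
lemma SOK.GD_psi : GD e (tau y) := by
  have hc := hy.cx
  have h2 : (dc (tau y)).Nonempty := by
    rw [← card_pos]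
    omega
  obtain ⟨a, ha⟩ := h2
  refine ⟨a, mem_dc.1 ha, ?_⟩
  rw [hy.psi0 h1]
  exact Nat.zero_le _

lemma SOK.not_GD_sw_psi : ¬ GD (sw tau y e) (tau y) := by
  rintro ⟨a, ha, hle⟩
  have h3 : a ∈ dc (tau y) := mem_dc.2 ha
  have h4 := hy.sites H (Or.inr h3)
  rw [sw_psi, h1, hy.sw_lev (x := a) (by omega) (by omega) e, h4.2] at hle
  omega

lemma SOK.AdmL_sw : AdmL i (sw tau y e) ↔ AdmL i e := by
  constructor
  · rintro h z hz ⟨h2, h3⟩
    have h4 : z ≠ y := by
      rintro rfl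
      exact hy.not_FD_y h1 h2
    exact h z hz ⟨(hy.FD_sw H h1 hz).2 h2, (hy.GU_sw H h1 hz h4).2 h3⟩
  · rintro h z hz ⟨h2, h3⟩
    rw [hy.FD_sw H h1 hz] at h2
    have h4 : z ≠ y := by
      rintro rfl
      exact hy.not_FD_y h1 h2
    exact h z hz ⟨h2, (hy.GU_sw H h1 hz h4).1 h3⟩

lemma SOK.AdmU_sw : AdmU i (sw tau y e) ↔ AdmU i e := by
  constructor
  · rintro h z hz ⟨h2, h3⟩
    rw [← hy.FU_sw H h1 hz] at h2
    have h4 : z ≠ tau y := by
      rintro rfl
      exact hy.not_FU_psi H h1 h2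
    exact h z hz ⟨h2, (hy.GD_sw H h1 hz h4).2 h3⟩
  · rintro h z hz ⟨h2, h3⟩
    have h4 : z ≠ tau y := by
      rintro rfl
      exact hy.not_FU_psi H h1 h2
    rw [hy.FU_sw H h1 hz] at h2
    exact h z hz ⟨h2, (hy.GD_sw H h1 hz h4).1 h3⟩

lemma SOK.aL_sw : aL i (sw tau y e) = aL i e := by
  classical
  unfold aL
  congr 1
  ext z
  simp only [mem_filter, mem_univ, true_and]
  constructor
  · rintro ⟨hz, h⟩
    exact ⟨hz, (hy.FD_sw H h1 hz).1 h⟩
  · rintro ⟨hz, h⟩
    exact ⟨hz, (hy.FD_sw H h1 hz).2 h⟩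

lemma SOK.aU_sw : aU i (sw tau y e) = aU i e := by
  classical
  unfold aU
  congr 1
  ext z
  simp only [mem_filter, mem_univ, true_and]
  constructor
  · rintro ⟨hz, h⟩
    exact ⟨hz, (hy.FU_sw H h1 hz).1 h⟩
  · rintro ⟨hz, h⟩
    exact ⟨hz, (hy.FU_sw H h1 hz).2 h⟩

lemma SOK.pL_sw : pL i e = pL i (sw tau y e) + 1 := by
  classical
  have hl := hy.ly
  unfold pL
  have h2 : univ.filter (fun z : P => i < lev z ∧ ¬ FD e z ∧ ¬ GU e z) =
      insert y (univ.filter (fun z : P => i < lev z ∧ ¬ FD (sw tau y e) z ∧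
        ¬ GU (sw tau y e) z)) := by
    ext z
    simp only [mem_filter, mem_univ, true_and, mem_insert]
    by_cases hz : z = y
    · subst hz
      simp only [true_or, iff_true]
      exact ⟨by omega, hy.not_FD_y h1, hy.not_GU_y h1⟩
    · simp only [hz, false_or]
      constructor
      · rintro ⟨h4, h5, h6⟩
        refine ⟨h4, ?_, ?_⟩
        · rwa [hy.FD_sw H h1 h4]
        · rwa [hy.GU_sw H h1 h4 hz]
      · rintro ⟨h4, h5, h6⟩
        rw [hy.FD_sw H h1 h4] at h5
        rw [hy.GU_sw H h1 h4 hz] at h6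
        exact ⟨h4, h5, h6⟩
  rw [h2, card_insert_of_notMem]
  rw [mem_filter]
  rintro ⟨-, -, -, h⟩
  exact h (hy.GU_sw_y h1)

lemma SOK.pU_sw : pU i (sw tau y e) = pU i e + 1 := by
  classical
  have hp := hy.lw
  unfold pU
  have h2 : univ.filter (fun z : P => lev z < i ∧ ¬ FU (sw tau y e) z ∧ ¬ GD (sw tau y e) z) =
      insert (tau y) (univ.filter (fun z : P => lev z < i ∧ ¬ FU e z ∧ ¬ GD e z)) := by
    ext z
    simp only [mem_filter, mem_univ, true_and, mem_insert]
    by_cases hz : z = tau y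
    · subst hz
      simp only [true_or, iff_true]
      exact ⟨by omega, hy.not_FU_psi H h1, hy.not_GD_sw_psi H h1⟩
    · simp only [hz, false_or]
      constructor
      · rintro ⟨h4, h5, h6⟩
        rw [hy.FU_sw H h1 h4] at h5
        rw [hy.GD_sw H h1 h4 hz] at h6
        exact ⟨h4, h5, h6⟩
      · rintro ⟨h4, h5, h6⟩
        refine ⟨h4, ?_, ?_⟩
        · rwa [hy.FU_sw H h1 h4]
        · rwa [hy.GD_sw H h1 h4 hz]
  rw [h2, card_insert_of_notMem]
  rw [mem_filter]
  rintro ⟨-, -, -, h⟩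
  exact h (hy.GD_psi h1)

lemma SOK.AL_sw : AL i e = AL i (sw tau y e) ∪ uc y ∧ Disjoint (AL i (sw tau y e)) (uc y) ∧
    Disjoint (uc y) (AU i e) := by
  classical
  have hl := hy.ly
  have hp := hy.lw
  have hp0 := hy.psi0 h1
  have site : ∀ v, lev v = i → sw tau y e v = e v := fun v hv =>
    hy.sw_lev (by omega) (by omega) e
  have hzf : ∀ v ∈ uc y, ¬ FD (sw tau y e) v := by
    intro v hv
    have h2 := lev_uc H hv
    rintro ⟨z, hz, hlt⟩
    have h3 := lev_dc H (mem_dc.2 hz)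
    by_cases h4 : z = y
    · subst h4
      rw [sw_y, hp0] at hlt
      omega
    · rw [sw_ne e h4 (by rintro rfl; omega),
        hy.lo' v (Or.inl hv) z (mem_dc.2 hz) h4] at hlt
      omega
  refine ⟨?_, ?_, ?_⟩
  · ext v
    rw [mem_union, NormD_mem_AL, NormD_mem_AL]
    constructor
    · rintro ⟨hv, z, hz, hlt⟩
      have h3 := lev_dc H (mem_dc.2 hz)
      by_cases h4 : z = y
      · rw [h4] at hz
        exact Or.inr (mem_uc.2 hz)
      · left
        refine ⟨hv, z, hz, ?_⟩
        rwa [site v hv, sw_ne e h4 (by rintro rfl; omega)]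
    · rintro (⟨hv, z, hz, hlt⟩ | h)
      · refine ⟨hv, z, hz, ?_⟩
        have h3 := lev_dc H (mem_dc.2 hz)
        by_cases h4 : z = y
        · subst h4
          rw [sw_y, hp0] at hlt
          omega
        · rwa [site v hv, sw_ne e h4 (by rintro rfl; omega)] at hlt
      · have h2 := lev_uc H h
        have h3 := hy.s0 v h
        exact ⟨by omega, y, mem_uc.1 h, by omega⟩
  · rw [disjoint_left]
    intro v hv hv'
    rw [NormD_mem_AL] at hv
    exact hzf v hv' hv.2
  · rw [disjoint_left]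
    intro v hv hv'
    rw [NormD_mem_AU] at hv'
    obtain ⟨-, z, hz, hlt⟩ := hv'
    by_cases h4 : z = tau y
    · rw [h4] at hlt
      omega
    · rw [hy.up' v (Or.inl hv) z (mem_uc.2 hz) h4] at hlt
      omega

lemma SOK.AU_sw : AU i (sw tau y e) = AU i e ∪ dc (tau y) ∧ Disjoint (AU i e) (dc (tau y)) ∧
    Disjoint (AL i (sw tau y e)) (dc (tau y)) := by
  classical
  have hl := hy.ly
  have hp := hy.lw
  have hp0 := hy.psi0 h1
  have site : ∀ v, lev v = i → sw tau y e v = e v := fun v hv =>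
    hy.sw_lev (by omega) (by omega) e
  have hz : ∀ v ∈ dc (tau y), ¬ FU e v := by
    intro v hv
    rintro ⟨z, hz, hlt⟩
    by_cases h4 : z = tau y
    · rw [h4] at hlt
      omega
    · rw [hy.up' v (Or.inr hv) z (mem_uc.2 hz) h4] at hlt
      omega
  refine ⟨?_, ?_, ?_⟩
  · ext v
    rw [mem_union, NormD_mem_AU, NormD_mem_AU]
    constructor
    · rintro ⟨hv, z, hz, hlt⟩
      have h3 := lev_uc H (mem_uc.2 hz)
      rw [site v hv] at hlt
      by_cases h4 : z = tau y
      · rw [h4] at hz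
        exact Or.inr (mem_dc.2 hz)
      · left
        refine ⟨hv, z, hz, ?_⟩
        rwa [sw_ne e (by rintro rfl; omega) h4] at hlt
    · rintro (⟨hv, z, hz, hlt⟩ | h)
      · refine ⟨hv, z, hz, ?_⟩
        have h3 := lev_uc H (mem_uc.2 hz)
        rw [site v hv]
        by_cases h4 : z = tau y
        · rw [h4] at hlt
          omega
        · rwa [sw_ne e (by rintro rfl; omega) h4]
      · have h2 := lev_dc H h
        have h3 := hy.s1 v h
        refine ⟨by omega, tau y, mem_dc.1 h, ?_⟩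
        rw [site v (by omega), sw_psi]
        omega
  · rw [disjoint_left]
    intro v hv hv'
    rw [NormD_mem_AU] at hv
    exact hz v hv' hv.2
  · rw [disjoint_left]
    intro v hv hv'
    rw [NormD_mem_AL] at hv
    obtain ⟨-, z, hz, hlt⟩ := hv
    have h3 := lev_dc H (mem_dc.2 hz)
    have h2 := lev_dc H hv'
    by_cases h4 : z = y
    · rw [h4, sw_y, hp0] at hlt
      omega
    · rw [sw_ne e h4 (by rintro rfl; omega),
        hy.lo' v (Or.inr hv') z (mem_dc.2 hz) h4] at hlt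
      omega

/-- THE WEIGHT of the exchange -/
theorem SOK.tC_sw (C : Finset P) : tC i C (sw tau y e) = tC i C e * xi ^ 3 := by
  classical
  obtain ⟨a1, a2, a3⟩ := hy.AL_sw H h1
  obtain ⟨b1, b2, b3⟩ := hy.AU_sw H h1
  have hd : Disjoint (AL i (sw tau y e)) (AU i (sw tau y e)) ↔ Disjoint (AL i e) (AU i e) := by
    rw [b1, a1, disjoint_union_right, disjoint_union_left]
    constructor
    · rintro ⟨h2, -⟩
      exact ⟨h2, a3⟩
    · rintro ⟨h2, -⟩
      exact ⟨h2, b3⟩
  unfold tC
  by_cases h2 : Disjoint (AL i e) (AU i e)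
  · rw [if_pos h2, if_pos (hd.2 h2)]
    have c1 : (AL i e).card = (AL i (sw tau y e)).card + 2 := by
      conv_lhs => rw [a1]
      rw [card_union_of_disjoint a2, hy.cy]
    have c2 : (AU i (sw tau y e)).card = (AU i e).card + 2 := by
      rw [b1, card_union_of_disjoint b2, hy.cx]
    have hcw : cw i (sw tau y e) = cw i e * xi ^ 1 := by
      unfold cw
      rw [hy.AdmL_sw H h1, hy.AdmU_sw H h1, hy.aL_sw H h1, hy.aU_sw H h1]
      by_cases h3 : AdmL i e ∧ AdmU i e
      · rw [if_pos h3, if_pos h3, hy.pU_sw H h1, hy.pL_sw H h1]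
        have : pL i (sw tau y e) + (pU i e + 1) = pL i (sw tau y e) + 1 + pU i e := by omega
        rw [this, ← add_assoc (aU i e), pow_add xi]
        ring
      · rw [if_neg h3, if_neg h3, zero_mul]
    rw [hcw, c2, c1]
    have h4 : (st i C).card - (AL i (sw tau y e)).card - ((AU i e).card + 2) =
        (st i C).card - ((AL i (sw tau y e)).card + 2) - (AU i e).card := by omega
    rw [h4]
    have h5 : xx ^ 2 * xi ^ 2 = 1 := by
      rw [← mul_pow, xx_mul_xi, one_pow]
    have h6 : xi ^ 3 = xi ^ 1 * xi ^ 2 := by rw [← pow_add]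
    rw [h6, pow_add xx]
    calc cw i e * xi ^ 1 *
          (xx ^ (AL i (sw tau y e)).card * dd ^ ((st i C).card -
            ((AL i (sw tau y e)).card + 2) - (AU i e).card))
        = cw i e * xi ^ 1 *
          (xx ^ (AL i (sw tau y e)).card * dd ^ ((st i C).card -
            ((AL i (sw tau y e)).card + 2) - (AU i e).card)) * 1 := by rw [mul_one]
      _ = _ := by rw [← h5]; ring
  · rw [if_neg h2, if_neg (fun h => h2 (hd.1 h)), zero_mul]

end stat

end Pool.Agent.GaussPoset.Win.K2
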