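import Pool.Agent.W_448L1_h63.LaB

/-!
Components without a heavy join at the window j (MP_448cb3_co, case B): the commuting exchanges of
a configuration.
-/

namespace Pool.Agent.GaussPoset.Win.K2

set_option linter.unusedSectionVars false

open Finset I2

universe u

variable {P : Type u} [Fintype P] [PartialOrder P] [DecidableEq P] {r i : ℕ} {e : P → ℕ}

variable {ι : Type*} [DecidableEq ι] {κ : P → ι} {K : Finset P} {psi tau : P → P}

open Classical in
/-- the free pairs of a configuration -/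
noncomputable def StK (i : ℕ) (κ : P → ι) (K : Finset P) (tau : P → P) (e : P → ℕ) : Finset P :=
  K.filter (fun y => Pr i κ K y (tau y) ∧ SOK i tau e y)

lemma mem_StK {y : P} : y ∈ StK i κ K tau e ↔ y ∈ K ∧ Pr i κ K y (tau y) ∧ SOK i tau e y := by
  classical
  unfold StK
  rw [mem_filter]

/-- the exchanges of a configuration -/
noncomputable def Act2 (i : ℕ) (κ : P → ι) (K : Finset P) (psi tau : P → P) (e : P → ℕ) :
    Finset P := SK i K psi e ∪ StK i κ K tau e

open Classical in
/-- the exchange at `y` -/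
noncomputable def sig (K : Finset P) (psi tau : P → P) (y : P) (e : P → ℕ) : P → ℕ :=
  if y ∈ K then sw tau y e else sw psi y e

lemma sig_K {y : P} (hy : y ∈ K) : sig K psi tau y e = sw tau y e := by
  unfold sig
  rw [if_pos hy]

lemma sig_nK {y : P} (hy : y ∉ K) : sig K psi tau y e = sw psi y e := by
  unfold sig
  rw [if_neg hy]

section lab

variable (H : Gr P r) (hκ : Split (i + 1) κ)
include H hκ

lemma SOK.lab {y x : P} (hp : Pr i κ K y (tau y)) (hy : SOK i tau e y)
    (hx : x ∈ uc y ∨ x ∈ dc (tau y)) : κ x = κ y := by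
  rcases hx with h | h
  · exact (hκ (mem_uc.1 h) (by have := hy.ly; omega)).symm
  · have h1 := lev_dc H h
    have h2 := hy.lw
    rw [hκ (mem_dc.1 h) (by omega), hp.lab]

lemma SOK.lab_dc {y x z : P} (hp : Pr i κ K y (tau y)) (hy : SOK i tau e y)
    (hx : x ∈ uc y ∨ x ∈ dc (tau y)) (hz : z ∈ dc x) : κ z = κ y := by
  have h1 := (hy.sites H hx).1
  have h2 := lev_dc H hz
  rw [hκ (mem_dc.1 hz) (by omega)]
  exact hy.lab H hκ hp hx

lemma SOK.lab_uc {y x z : P} (hp : Pr i κ K y (tau y)) (hy : SOK i tau e y)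
    (hx : x ∈ uc y ∨ x ∈ dc (tau y)) (hz : z ∈ uc x) : κ z = κ y := by
  have h1 := (hy.sites H hx).1
  rw [← hκ (mem_uc.1 hz) (by omega)]
  exact hy.lab H hκ hp hx

end lab

lemma StK_ne {y y' : P} (hy : y ∈ StK i κ K tau e) (hy' : y' ∈ StK i κ K tau e) (hne : y' ≠ y) :
    κ y' ≠ κ y := by
  intro h
  obtain ⟨k1, p1, s1⟩ := mem_StK.1 hy
  obtain ⟨k2, p2, s2⟩ := mem_StK.1 hy'
  rcases p1.only y' k2 h with h3 | h3
  · exact hne h3
  · have h4 := s1.lw
    have h5 := s2.ly
    rw [h3] at h5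
    omega

/-- a free pair has no common site with a simple edge -/
lemma free_simple (hM : Mat P i K psi) {y y' : P} (hy : y ∈ StK i κ K tau e)
    (hy' : y' ∈ SK i K psi e) {x : P} (hx : x ∈ uc y ∨ x ∈ dc (tau y)) (hx' : x ∈ uc y') :
    False := by
  obtain ⟨k1, p1, s1⟩ := mem_StK.1 hy
  obtain ⟨k2, s2⟩ := mem_SK2.1 hy'
  obtain ⟨q1, q2, q3, q4⟩ := psi_low hM (mem_sdiff.1 k2).1 (mem_sdiff.1 k2).2
  have h1 : e y' = 0 := s1.lo' x hx y' (mem_dc.2 (mem_uc.1 hx')) (by
    rintro rfl
    exact (mem_sdiff.1 k2).2 k1)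
  have h2 : e (psi y') = 0 := by
    refine s1.up' x hx (psi y') ?_ ?_
    · rw [mem_uc, ← mem_dc, q2]
      exact hx'
    · intro h
      rw [h] at q4
      exact q4 p1.kK'
  rcases s2.one with h | h <;> omega

section mat

variable (hM : Mat P i K psi) (H : Gr P r)
include hM H

/-- the simple edges after the exchange of a free pair -/
lemma SK_sub_StK {y : P} (hy : y ∈ StK i κ K tau e) : SK i K psi e ⊆ SK i K psi (sw tau y e) := by
  intro y' hy'
  obtain ⟨k1, p1, s1⟩ := mem_StK.1 hy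
  obtain ⟨k2, s2⟩ := mem_SK2.1 hy'
  obtain ⟨q1, q2, q3, q4⟩ := psi_low hM (mem_sdiff.1 k2).1 (mem_sdiff.1 k2).2
  have hl' := (dL1 k2).1
  have hq := (mem_dbU'.1 q1).1
  have l1 := s1.ly
  have l2 := s1.lw
  have n1 : y' ≠ y := by
    rintro rfl
    exact (mem_sdiff.1 k2).2 k1
  have n2 : psi y' ≠ tau y := by
    intro h
    rw [h] at q4
    exact q4 p1.kK'
  have uy' : ∀ x ∈ uc y', sw tau y e x = e x := by
    intro x hx
    have := lev_uc H hx
    exact s1.sw_lev (by omega) (by omega) e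
  rw [mem_SK2]
  refine ⟨k2, ?_, ?_, ?_, ?_, ?_, ?_⟩
  · rw [sw_ne e n1 (by intro h; rw [← h] at l2; omega),
      sw_ne e (x := psi y') (by intro h; rw [← h] at l1; omega) n2]
    exact s2.one
  · intro z hz
    have := lev_dc H hz
    rw [s1.sw_lev (by omega) (by omega)]
    exact s2.lo z hz
  · intro u hu
    have := lev_uc H hu
    rw [s1.sw_lev (by omega) (by omega)]
    exact s2.up u hu
  · obtain ⟨x, hx, hx0⟩ := s2.ex
    exact ⟨x, hx, by rw [uy' x hx, hx0]⟩
  · intro x hx hx0 z hz hzy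
    rw [uy' x hx] at hx0
    have h1 := lev_dc H hz
    have h2 := lev_uc H hx
    have hz0 := s2.lo' x hx hx0 z hz hzy
    have h3 : z ≠ y := by
      rintro rfl
      exact free_simple hM hy hy' (Or.inl (mem_uc.2 (mem_dc.1 hz))) hx
    rw [sw_ne e h3 (by rintro rfl; omega), hz0]
  · intro x hx hx0 u hu huy
    rw [uy' x hx] at hx0
    have h1 := lev_uc H hu
    have h2 := lev_uc H hx
    have hu0 := s2.up' x hx hx0 u hu huy
    have h3 : u ≠ tau y := by
      rintro rfl
      exact free_simple hM hy hy' (Or.inr (mem_dc.2 (mem_uc.1 hu))) hx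
    rw [sw_ne e (by rintro rfl; omega) h3, hu0]

/-- the free pairs after the swap at a simple edge -/
lemma StK_sub_SK {y : P} (hy : y ∈ SK i K psi e) : StK i κ K tau e ⊆ StK i κ K tau (sw psi y e) := by
  intro y' hy'
  obtain ⟨k1, s1⟩ := mem_SK2.1 hy
  obtain ⟨k2, p2, s2⟩ := mem_StK.1 hy'
  obtain ⟨q1, q2, q3, q4⟩ := psi_low hM (mem_sdiff.1 k1).1 (mem_sdiff.1 k1).2
  have hl' := (dL1 k1).1
  have hq := (mem_dbU'.1 q1).1
  have l1 := s2.ly
  have l2 := s2.lw
  have n1 : y' ≠ y := by
    rintro rfl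
    exact (mem_sdiff.1 k1).2 k2
  have n2 : tau y' ≠ psi y := by
    intro h
    rw [← h] at q4
    exact q4 p2.kK'
  have far : ∀ x, lev x ≠ i + 1 → lev x + 1 ≠ i → sw psi y e x = e x := fun x h1 h2 =>
    sw_lev hM k1 h1 h2 e
  rw [mem_StK]
  refine ⟨k2, p2, s2.ly, s2.lw, s2.cy, s2.cx, ?_, ?_, ?_, ?_, ?_, ?_, ?_⟩
  · rw [sw_ne e n1 (by rintro rfl; omega),
      sw_ne e (x := tau y') (by intro h; rw [h] at l2; omega) n2]
    exact s2.one
  · intro z hz
    have := lev_dc H hz
    rw [far z (by omega) (by omega)]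
    exact s2.lo z hz
  · intro z hz
    have := lev_uc H hz
    rw [far z (by omega) (by omega)]
    exact s2.up z hz
  · intro z hz
    have := lev_uc H hz
    rw [far z (by omega) (by omega)]
    exact s2.s0 z hz
  · intro z hz
    have := lev_dc H hz
    rw [far z (by omega) (by omega)]
    exact s2.s1 z hz
  · intro x hx z hz hne
    have h1 := (s2.sites H hx).1
    have h2 := lev_dc H hz
    have h3 : z ≠ y := by
      rintro rfl
      exact free_simple hM hy' hy hx (mem_uc.2 (mem_dc.1 hz))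
    rw [sw_ne e h3 (by rintro rfl; omega)]
    exact s2.lo' x hx z hz hne
  · intro x hx z hz hne
    have h1 := (s2.sites H hx).1
    have h2 := lev_uc H hz
    have h3 : z ≠ psi y := by
      rintro rfl
      refine free_simple hM hy' hy hx ?_
      rw [← q2, mem_dc, ← mem_uc]
      exact hz
    rw [sw_ne e (by rintro rfl; omega) h3]
    exact s2.up' x hx z hz hne

omit hM in
/-- the free pairs after the exchange of a free pair -/
lemma StK_sub_StK (hκ : Split (i + 1) κ) {y : P} (hy : y ∈ StK i κ K tau e) :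
    StK i κ K tau e ⊆ StK i κ K tau (sw tau y e) := by
  intro y' hy'
  obtain ⟨k1, p1, s1⟩ := mem_StK.1 hy
  obtain ⟨k2, p2, s2⟩ := mem_StK.1 hy'
  rw [mem_StK]
  refine ⟨k2, p2, ?_⟩
  by_cases hne : y' = y
  · subst hne
    exact s1.self H
  have hk := StK_ne hy hy' hne
  have l1 := s1.ly
  have l2 := s1.lw
  have l1' := s2.ly
  have l2' := s2.lw
  have far : ∀ x, lev x ≠ i + 1 → lev x + 1 ≠ i → sw tau y e x = e x := fun x h1 h2 =>
    s1.sw_lev h1 h2 e
  have oth : ∀ x, κ x ≠ κ y → sw tau y e x = e x := by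
    intro x hx
    refine sw_ne e (by rintro rfl; exact hx rfl) ?_
    rintro rfl
    exact hx p1.lab.symm
  refine ⟨s2.ly, s2.lw, s2.cy, s2.cx, ?_, ?_, ?_, ?_, ?_, ?_, ?_⟩
  · rw [oth y' hk, oth (tau y') (by rw [← p2.lab]; exact hk)]
    exact s2.one
  · intro z hz
    have := lev_dc H hz
    rw [far z (by omega) (by omega)]
    exact s2.lo z hz
  · intro z hz
    have := lev_uc H hz
    rw [far z (by omega) (by omega)]
    exact s2.up z hz
  · intro z hz
    have := lev_uc H hz
    rw [far z (by omega) (by omega)]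
    exact s2.s0 z hz
  · intro z hz
    have := lev_dc H hz
    rw [far z (by omega) (by omega)]
    exact s2.s1 z hz
  · intro x hx z hz hzn
    rw [oth z (by rw [s2.lab_dc H hκ p2 hx hz]; exact hk)]
    exact s2.lo' x hx z hz hzn
  · intro x hx z hz hzn
    rw [oth z (by rw [s2.lab_uc H hκ p2 hx hz]; exact hk)]
    exact s2.up' x hx z hz hzn

/-- an exchange does not change the set of the exchanges -/
theorem Act2_sig (hκ : Split (i + 1) κ) {y : P} (hy : y ∈ Act2 i κ K psi tau e) :
    Act2 i κ K psi tau (sig K psi tau y e) = Act2 i κ K psi tau e := by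
  unfold Act2 at hy ⊢
  rcases mem_union.1 hy with h | h
  · have hK : y ∉ K := (mem_SK.1 h).2.1
    rw [sig_nK hK, SK_sw hM H h]
    congr 1
    apply Finset.Subset.antisymm _ (StK_sub_SK hM H h)
    have h2 := StK_sub_SK (κ := κ) (tau := tau) hM H (e := sw psi y e) (y := y)
      (by rw [SK_sw hM H h]; exact h)
    rwa [sw_sw] at h2
  · have hK : y ∈ K := (mem_StK.1 h).1
    rw [sig_K hK]
    have h3 := StK_sub_StK H hκ h
    congr 1
    · apply Finset.Subset.antisymm _ (SK_sub_StK hM H h)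
      have h2 := SK_sub_StK hM H (h3 h)
      rwa [sw_sw] at h2
    · apply Finset.Subset.antisymm _ h3
      have h2 := StK_sub_StK H hκ (h3 h)
      rwa [sw_sw] at h2

end mat

end Pool.Agent.GaussPoset.Win.K2
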