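import Pool.Agent.W_448L1_h63.LaC

/-!
Components without a heavy join at the window j (MP_448cb3_co, case B): divisibility of the sum
over the configurations of a series by the commuting exchanges.
-/

namespace Pool.Agent.GaussPoset.Win.K2

set_option linter.unusedSectionVars false

open Finset I2

universe u

variable {P : Type u} [Fintype P] [PartialOrder P] [DecidableEq P] {r i : ℕ} {e : P → ℕ}

variable {ι : Type*} [DecidableEq ι] {κ : P → ι} {K : Finset P} {psi tau : P → P}

lemma Act2_lev {y : P} (hy : y ∈ Act2 i κ K psi tau e) : lev y = i + 1 := by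
  unfold Act2 at hy
  rcases mem_union.1 hy with h | h
  · exact (dL1 (mem_SK2.1 h).1).1
  · exact (mem_StK.1 h).2.2.ly

section mat

variable (hM : Mat P i K psi) (H : Gr P r) (hκ : Split (i + 1) κ)
include hM

/-- an exchange changes two near elements only -/
lemma sig_ne {y : P} (hy : y ∈ Act2 i κ K psi tau e) {x : P} (hx : x ≠ y) (hl : lev x + 1 ≠ i)
    (f : P → ℕ) : sig K psi tau y f x = f x := by
  unfold Act2 at hy
  rcases mem_union.1 hy with h | h
  · rw [sig_nK (mem_SK.1 h).2.1]
    have hp := (mem_dbU'.1 (psi_lowK hM (mem_SK2.1 h).1).1).1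
    exact sw_ne f hx (by rintro rfl; exact hl hp)
  · rw [sig_K (mem_StK.1 h).1]
    have hp := (mem_StK.1 h).2.2.lw
    exact sw_ne f hx (by rintro rfl; exact hl hp)

omit hM in
lemma sig_sig (y : P) (f : P → ℕ) : sig K psi tau y (sig K psi tau y f) = f := by
  by_cases h : y ∈ K
  · rw [sig_K h, sig_K h, sw_sw]
  · rw [sig_nK h, sig_nK h, sw_sw]

omit hM in
lemma sum_sig (y : P) (f : P → ℕ) : ∑ x, sig K psi tau y f x = ∑ x, f x := by
  by_cases h : y ∈ K
  · rw [sig_K h, sum_sw]
  · rw [sig_nK h, sum_sw]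

lemma sig_own {y : P} (hy : y ∈ Act2 i κ K psi tau e) :
    sig K psi tau y e y = 1 ↔ ¬ e y = 1 := by
  unfold Act2 at hy
  rcases mem_union.1 hy with h | h
  · rw [sig_nK (mem_SK.1 h).2.1, sw_y]
    rcases (mem_SK2.1 h).2.one with h1 | h1 <;> omega
  · rw [sig_K (mem_StK.1 h).1, sw_y]
    rcases (mem_StK.1 h).2.2.one with h1 | h1 <;> omega

lemma mm_sig (H : Gr P r) {y : P} (hy : y ∈ Act2 i κ K psi tau e) {y' : P}
    (hy' : lev y' = i + 1) : mm (sig K psi tau y e) y' = mm e y' := by
  have h2 : z0 (sig K psi tau y e) y' = z0 e y' := by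
    unfold z0
    refine filter_congr fun x hx => ?_
    have h3 := lev_uc H hx
    have h4 := Act2_lev hy
    rw [sig_ne hM hy (by rintro rfl; omega) (by omega)]
  unfold mm
  rw [h2]

include H hκ

lemma sig_far {y : P} (hy : y ∈ Act2 i κ K psi tau e) {z : P} (hz : z ∉ cuni (i + 1) κ) :
    sig K psi tau y e z = e z := by
  have h4 := (two_up H hκ hz).1
  have h5 := Act2_lev hy
  exact sig_ne hM hy (by rintro rfl; omega) (by omega) e

lemma spt_sig {T : Finset ι} (hs : Spt (eT (i + 1) κ T) e) {y : P}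
    (hy : y ∈ Act2 i κ K psi tau e) : Spt (eT (i + 1) κ T) (sig K psi tau y e) := by
  unfold Act2 at hy
  rcases mem_union.1 hy with h | h
  · rw [sig_nK (mem_SK.1 h).2.1]
    exact spt_sw hM H (part_eT H le_rfl hκ T) hs h
  · rw [sig_K (mem_StK.1 h).1]
    obtain ⟨k1, p1, s1⟩ := mem_StK.1 h
    have l1 := s1.ly
    have l2 := s1.lw
    have hyT : κ y ∈ T := by
      rcases s1.one with h | h
      · have h4 : y ∈ eT (i + 1) κ T := by
          by_contra h5
          have := hs y h5
          omega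
        exact mem_eT.1 h4 y le_rfl (by omega)
      · have h4 : tau y ∈ eT (i + 1) κ T := by
          by_contra h5
          have := hs _ h5
          omega
        rw [p1.lab]
        exact mem_eT.1 h4 _ le_rfl (by omega)
    have m1 : y ∈ eT (i + 1) κ T := mem_eT_of_le hκ (by omega) hyT
    have m2 : tau y ∈ eT (i + 1) κ T := mem_eT_of_le hκ (by omega) (by rw [← p1.lab]; exact hyT)
    intro z hz
    rw [sw_ne e (by rintro rfl; exact hz m1) (by rintro rfl; exact hz m2)]
    exact hs z hz

open Classical in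
/-- divisibility of the coefficients from a bound for every configuration -/
theorem XT_dvd2 {T : Finset ι} {Q : (P → ℕ) → Prop}
    (hQ : ∀ e f : P → ℕ, (∀ z, z ∉ cuni (i + 1) κ → e z = f z) → (Q e ↔ Q f)) {n m : ℕ}
    (hb : ∀ e : P → ℕ, ∑ x, e x = n → Spt (eT (i + 1) κ T) e → Tch (i + 1) κ e = T → Q e →
      AdmL i e → AdmU i e → Disjoint (AL i e) (AU i e) →
      (AL i e).card + (AU i e).card ≤
        m + (pL i e + pU i e) + (Act2 i κ K psi tau e).card) :
    dd ^ ((st i (eT (i + 1) κ T)).card - m) ∣ PowerSeries.coeff n (XT i κ T Q) := by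
  unfold XT
  rw [coeff_ZQ]
  obtain ⟨Om, hOm⟩ : ∃ Om : Finset (P → ℕ), Om = ((eT (i + 1) κ T).piAntidiag n).filter
    (fun e => Tch (i + 1) κ e = T ∧ Q e) := ⟨_, rfl⟩
  have hm : ∀ e : P → ℕ, e ∈ Om ↔
      (∑ x, e x = n ∧ Spt (eT (i + 1) κ T) e) ∧ Tch (i + 1) κ e = T ∧ Q e := by
    intro e
    rw [hOm, mem_filter, mem_pa']
  have I : Ivl Om (fun e => Act2 i κ K psi tau e) (sig K psi tau) (fun y e => e y = 1)
      (fun e => tC i (eT (i + 1) κ T) e)
      (fun y e => if y ∈ K then xi ^ 3 else xi ^ mm e y) dd := by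
    refine ⟨?_, ?_, ?_, ?_, ?_, ?_, ?_, ?_⟩
    · intro e he y hy
      rw [hm] at he ⊢
      obtain ⟨⟨h1, h2⟩, h3, h4⟩ := he
      have h5 : ∀ z, z ∉ cuni (i + 1) κ → sig K psi tau y e z = e z := fun z hz =>
        sig_far hM H hκ hy hz
      refine ⟨⟨by rw [sum_sig]; exact h1, spt_sig hM H hκ h2 hy⟩, ?_, ?_⟩
      · rw [Tch_congr h5]
        exact h3
      · exact (hQ _ _ h5).2 h4
    · intro e _ y hy
      exact Act2_sig hM H hκ hy
    · intro e _ y _
      exact sig_sig y e
    · intro e _ y hy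
      exact sig_own hM hy
    · intro e _ y hy y' hy' hne
      have := Act2_lev hy'
      rw [sig_ne hM hy hne (by omega)]
    · intro e _ y hy h1
      unfold Act2 at hy
      rcases mem_union.1 hy with h | h
      · rw [sig_nK (mem_SK.1 h).2.1, if_neg (mem_SK.1 h).2.1]
        exact tC_sw hM H h h1 _
      · rw [sig_K (mem_StK.1 h).1, if_pos (mem_StK.1 h).1]
        exact (mem_StK.1 h).2.2.tC_sw H h1 _
    · intro e _ y hy y' hy' _
      split_ifs with h
      · rfl
      · rw [mm_sig hM H hy (Act2_lev hy')]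
    · intro e _ y hy
      split_ifs with h
      · exact dd_dvd_odd (Or.inr rfl)
      · unfold Act2 at hy
        rcases mem_union.1 hy with h' | h'
        · exact dd_dvd_odd (mm_cases hM h')
        · exact absurd (mem_StK.1 h').1 h
  have h := I.dvd (N := (st i (eT (i + 1) κ T)).card - m) (by
    intro e he
    rw [hm] at he
    obtain ⟨⟨h1, h2⟩, h3, h4⟩ := he
    exact tC_dvd fun hL hU hd => hb e h1 h2 h3 h4 hL hU hd)
  rw [hOm] at h
  convert h

end mat

end Pool.Agent.GaussPoset.Win.K2
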