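import Pool.Agent.W_448L1_h63.LaD

/-!
Components without a heavy join at the window j (MP_448cb3_co, case B): the configurations with
equality in the inequality of slope two thirds.
-/

namespace Pool.Agent.GaussPoset.Win.K2

set_option linter.unusedSectionVars false

open Finset I2

universe u

variable {P : Type u} [Fintype P] [PartialOrder P] [DecidableEq P] {r i : ℕ} {e : P → ℕ}

variable {ι : Type*} [DecidableEq ι] {κ : P → ι} {K : Finset P} {psi tau : P → P}

variable {T : Finset ι}

/-- the structure of the extremal configurations -/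
structure EqC (i : ℕ) (κ : P → ι) (K : Finset P) (psi : P → P) (T : Finset ι) (e : P → ℕ) :
    Prop where
  sk : SK i K psi e = ∅
  bad : ∀ x, x ∉ DxD i e → 1 ≤ e x → x ∈ bN i e
  site : ∀ x, lev x = i → e x = 0
  kb : ∀ a ∈ T, ((KB i K e).filter (fun x => κ x = a)).card = 1
  rel : ∀ x ∈ DxD i e, ∃ a ∈ T, Rtd i κ e a x
  uniq : ∀ a ∈ T, ∀ x x', Rtd i κ e a x → Rtd i κ e a x' → x = x'

lemma Rtd.mem {a : ι} {x : P} (h : Rtd i κ e a x) : x ∈ DxD i e := by
  rw [mem_DxD]
  rcases h with ⟨h1, h2, -, h4⟩ | ⟨h1, h2, -, -⟩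
  · exact ⟨h4, Or.inr ⟨h1, h2⟩⟩
  · exact ⟨h2, Or.inl (by omega)⟩

section main

variable (H : Gr P r) (hir : i ≤ r) (hq : NoQ P (i + 2)) (hg : ∀ m, m + 1 = i → Good P m)
  (hκ : Split (i + 1) κ) (hM : Mat P i K psi)
include H hir hq hg

lemma bN_lev {x : P} (h : x ∈ bN i e) : lev x = i + 1 ∨ lev x + 1 = i := by
  unfold bN at h
  rcases mem_union.1 h with h | h
  · exact Or.inl (bL_data H hir hq hg h).1
  · exact Or.inr (bU_data H hir hq hg h).1

include hκ hM

/-- THE EXTREMAL CONFIGURATIONS -/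
theorem eqC_of (hK : ∀ a ∈ T, Star i (cext (i + 1) κ a) K)
    (hs : ∀ x, lev x ≤ i + 1 → 1 ≤ e x → κ x ∈ T) (hT : ∀ a ∈ T, Tou i κ e a)
    (hL : AdmL i e) (hU : AdmU i e) (hd : Disjoint (AL i e) (AU i e))
    (hn : ¬ 3 * ((AL i e).card + (AU i e).card) + 1 ≤
      2 * (∑ x, e x) + 3 * (pL i e + pU i e) + 3 * (SK i K psi e).card) :
    EqC i κ K psi T e := by
  classical
  obtain ⟨XL, XU, hXL, hXU, h1⟩ := main_K hM H hir hq hg hL hU hd (δ := 0) (Or.inl rfl)
  have h2 : ∀ a ∈ T, ((KB i K e).filter (fun x => κ x = a)).card +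
      (XL.filter (fun x => κ x = a)).card + (XU.filter (fun x => κ x = a)).card ≤
      ∑ x ∈ (lv P i).filter (fun x => κ x = a), e x + 1 := fun a ha =>
    star_loc H hir hq hg hκ hM (hK a ha) hd hXL hXU
  have h3 : ∀ S : Finset P, (∀ x ∈ S, κ x ∈ T) →
      ∑ a ∈ T, (S.filter (fun x => κ x = a)).card = S.card := by
    intro S hS
    exact (Finset.card_eq_sum_card_fiberwise hS).symm
  have hKB : ∀ x ∈ KB i K e, κ x ∈ T := by
    intro k hk
    rw [mem_KB] at hk
    have h4 : k ∈ bN i e := by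
      unfold bN
      rcases hk.2 with h | h
      · exact mem_union_left _ h.1
      · exact mem_union_right _ h.1
    exact hs k (lev_bN H hir hq hg h4) (by have := (bN_data H hir hq hg h4).2.1; omega)
  have hXLT : ∀ x ∈ XL, κ x ∈ T := by
    intro x hx
    obtain ⟨l1, l2, -, -⟩ := hXL x hx
    exact hs x (by omega) l2
  have hXUT : ∀ x ∈ XU, κ x ∈ T := by
    intro x hx
    obtain ⟨l1, l2, -, -⟩ := hXU x hx
    exact hs x (by omega) l2
  have h4 := Finset.sum_le_sum h2
  rw [Finset.sum_add_distrib, Finset.sum_add_distrib, Finset.sum_add_distrib, h3 _ hKB,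
    h3 _ hXLT, h3 _ hXUT, Finset.sum_const, smul_eq_mul, mul_one] at h4
  have h5 : ∑ a ∈ T, ∑ x ∈ (lv P i).filter (fun x => κ x = a), e x ≤ ∑ x ∈ lv P i, e x := by
    rw [← Finset.sum_biUnion]
    · refine Finset.sum_le_sum_of_subset ?_
      intro x hx
      rw [mem_biUnion] at hx
      obtain ⟨a, -, hx⟩ := hx
      exact (mem_filter.1 hx).1
    · intro a _ b _ hab
      rw [Function.onFun, disjoint_left]
      intro x hx hx'
      exact hab ((mem_filter.1 hx).2.symm.trans (mem_filter.1 hx').2)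
  have h6 : ∑ x, e x = ∑ x ∈ lS P i, e x + ∑ x ∈ uS P i, e x + ∑ x ∈ lv P i, e x := by
    have h6 : (univ : Finset P) = (lS P i ∪ uS P i) ∪ lv P i := by
      ext x
      simp only [mem_univ, mem_union, mem_lS, mem_uS, mem_lv, true_iff]
      omega
    rw [h6, Finset.sum_union, Finset.sum_union]
    · rw [disjoint_left]
      intro x hx hx'
      rw [mem_lS] at hx
      rw [mem_uS] at hx'
      omega
    · rw [disjoint_left]
      intro x hx hx'
      rw [mem_union, mem_lS, mem_uS] at hx
      rw [mem_lv] at hx'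
      omega
  have h7 := ord_le H hir hq hg hL hU (D := DxD i e) (fun x hx => mem_DxD.1 hx)
  have h8 := card_touch H hκ hq hL hT
  have hsk : (SK i K psi e).card = 0 := by omega
  have hTD : T.card = (DxD i e).card := by omega
  obtain ⟨q1, -, -⟩ := ord_eq H hir hq hg hL hU (D := DxD i e) (fun x hx => mem_DxD.1 hx)
    (by omega)
  have hsite : ∀ x, lev x = i → e x = 0 := by
    intro x hx
    by_contra hne
    have hD : x ∉ DxD i e := by
      rw [mem_DxD]
      rintro ⟨-, h⟩
      unfold Dp at h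
      omega
    have := bN_lev H hir hq hg (q1 x hD (by omega))
    omega
  have hlv : ∑ x ∈ lv P i, e x = 0 := by
    refine Finset.sum_eq_zero fun x hx => ?_
    exact hsite x (mem_lv.1 hx)
  have hXL0 : XL = ∅ := by
    rw [Finset.eq_empty_iff_forall_notMem]
    intro x hx
    obtain ⟨l1, l2, -, -⟩ := hXL x hx
    have := hsite x l1
    omega
  have hXU0 : XU = ∅ := by
    rw [Finset.eq_empty_iff_forall_notMem]
    intro x hx
    obtain ⟨l1, l2, -, -⟩ := hXU x hx
    have := hsite x l1
    omega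
  have hkb1 : ∀ a ∈ T, ((KB i K e).filter (fun x => κ x = a)).card ≤ 1 := by
    intro a ha
    have h9 := h2 a ha
    have h10 : ∑ x ∈ (lv P i).filter (fun x => κ x = a), e x = 0 := by
      refine Finset.sum_eq_zero fun x hx => ?_
      exact hsite x (mem_lv.1 (mem_filter.1 hx).1)
    omega
  have hkb : ∀ a ∈ T, ((KB i K e).filter (fun x => κ x = a)).card = 1 := by
    refine (Finset.sum_eq_sum_iff_of_le hkb1).1 ?_
    rw [h3 _ hKB, Finset.sum_const, smul_eq_mul, mul_one]
    rw [hXL0, hXU0, card_empty] at h4 h1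
    omega
  -- the bijection
  have hrel : ∀ x ∈ DxD i e, ∃ a ∈ T, Rtd i κ e a x := by
    intro x hx
    by_contra hc
    push Not at hc
    have h9 : T.card ≤ ((DxD i e).erase x).card := by
      refine Finset.card_le_card_of_forall_subsingleton (fun a x => Rtd i κ e a x) ?_ ?_
      · intro a ha
        obtain ⟨y, hy, hr⟩ := Rtd_ex H hκ hL (hT a ha)
        refine ⟨y, mem_erase.2 ⟨?_, hy⟩, hr⟩
        rintro rfl
        exact hc a ha hr
      · intro x _ a ha a' ha'
        exact Rtd_inj H hκ hq hL ha.2 ha'.2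
    have h10 := card_erase_add_one hx
    omega
  have huniq : ∀ a ∈ T, ∀ x x', Rtd i κ e a x → Rtd i κ e a x' → x = x' := by
    intro a ha x x' hx hx'
    by_contra hne
    have h9 : (T.erase a).card ≤ (((DxD i e).erase x).erase x').card := by
      refine Finset.card_le_card_of_forall_subsingleton (fun a x => Rtd i κ e a x) ?_ ?_
      · intro b hb
        obtain ⟨hba, hb⟩ := mem_erase.1 hb
        obtain ⟨y, hy, hr⟩ := Rtd_ex H hκ hL (hT b hb)
        refine ⟨y, mem_erase.2 ⟨?_, mem_erase.2 ⟨?_, hy⟩⟩, hr⟩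
        · rintro rfl
          exact hba (Rtd_inj H hκ hq hL hr hx')
        · rintro rfl
          exact hba (Rtd_inj H hκ hq hL hr hx)
      · intro x _ a ha a' ha'
        exact Rtd_inj H hκ hq hL ha.2 ha'.2
    have h10 := card_erase_add_one ha
    have h11 := card_erase_add_one hx.mem
    have h12 := card_erase_add_one (mem_erase.2 ⟨fun h => hne h.symm, hx'.mem⟩)
    omega
  exact ⟨card_eq_zero.1 hsk, q1, hsite, hkb, hrel, huniq⟩

end main

end Pool.Agent.GaussPoset.Win.K2
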