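import Pool.Agent.W_448L1_h63.LaE

/-!
Components without a heavy join at the window j (MP_448cb3_co, case B): an extremal configuration
has a free pair at a light join.
-/

namespace Pool.Agent.GaussPoset.Win.K2

set_option linter.unusedSectionVars false

open Finset I2

universe u

variable {P : Type u} [Fintype P] [PartialOrder P] [DecidableEq P] {r i : ℕ} {e : P → ℕ}

variable {ι : Type*} [DecidableEq ι] {κ : P → ι} {K : Finset P} {psi tau : P → P}

variable {T : Finset ι}

section fin

variable (H : Gr P r) (hir : i ≤ r) (hq : NoQ P (i + 2)) (hg : ∀ m, m + 1 = i → Good P m)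
include H hir hq hg

lemma KB_bN {k : P} (hk : k ∈ KB i K e) : k ∈ K ∧ k ∈ bN i e := by
  rw [mem_KB] at hk
  refine ⟨hk.1, ?_⟩
  unfold bN
  rcases hk.2 with h | h
  · exact mem_union_left _ h.1
  · exact mem_union_right _ h.1

lemma EqC.low (E : EqC i κ K psi T e) {k : P} (hl : lev k = i + 1) (hc : (uc k).card = 2)
    (h0 : 1 ≤ e k) : k ∈ bL i e := by
  have h1 : k ∉ DxD i e := by
    rw [mem_DxD]
    rintro ⟨-, h⟩
    unfold Dp at h
    rcases h with h | h <;> omega
  have h2 := E.bad k h1 h0
  unfold bN at h2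
  rcases mem_union.1 h2 with h | h
  · exact h
  · have := (bU_data H hir hq hg h).1
    omega

lemma EqC.upp (E : EqC i κ K psi T e) {k : P} (hl : lev k + 1 = i) (h0 : 1 ≤ e k) :
    k ∈ bU i e := by
  have h1 : k ∉ DxD i e := by
    rw [mem_DxD]
    rintro ⟨-, h⟩
    unfold Dp at h
    rcases h with h | h <;> omega
  have h2 := E.bad k h1 h0
  unfold bN at h2
  rcases mem_union.1 h2 with h | h
  · have := (bL_data H hir hq hg h).1
    omega
  · exact h

lemma EqC.far (E : EqC i κ K psi T e) {u : P} (hl : lev u + 2 ≤ i) : e u = 0 := by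
  by_contra hne
  have h1 : u ∉ DxD i e := by
    rw [mem_DxD]
    rintro ⟨-, h⟩
    unfold Dp at h
    rcases h with h | h <;> omega
  have := bN_lev H hir hq hg (E.bad u h1 (by omega))
  omega

variable (hκ : Split (i + 1) κ) (hM : Mat P i K psi)
include hκ hM

/-- the labels of a free pair can be exchanged -/
lemma EqC.sok (E : EqC i κ K psi T e) (hL : AdmL i e) (hd : Disjoint (AL i e) (AU i e)) {k : P}
    (p : Pr i κ K k (tau k)) (haT : κ k ∈ T) (hlo : ∀ z ∈ dc k, e z = 0)
    (hno : ∀ x, (x ∈ uc k ∨ x ∈ dc (tau k)) → ∀ z ∈ dc x, z ≠ k → e z = 0) :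
    SOK i tau e k := by
  classical
  have hk := mem_dbL'.1 p.hk
  have hk' := mem_dbU'.1 p.hk'
  have hup : ∀ u ∈ uc (tau k), e u = 0 := by
    intro u hu
    have := lev_uc H hu
    exact E.far H hir hq hg (by omega)
  have hsx : ∀ x, (x ∈ uc k ∨ x ∈ dc (tau k)) → lev x = i ∧ κ x = κ k := by
    intro x hx
    rcases hx with h | h
    · have := lev_uc H h
      exact ⟨by omega, (hκ (mem_uc.1 h) (by omega)).symm⟩
    · have := lev_dc H h
      exact ⟨by omega, by rw [hκ (mem_dc.1 h) (by omega), p.lab]⟩
  have m1 : 1 ≤ e k → k ∈ KB i K e := by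
    intro h
    exact mem_KB.2 ⟨p.kK, Or.inl ⟨E.low H hir hq hg hk.1 hk.2 h, hlo⟩⟩
  have m2 : 1 ≤ e (tau k) → tau k ∈ KB i K e := by
    intro h
    exact mem_KB.2 ⟨p.kK', Or.inr ⟨E.upp H hir hq hg hk'.1 h, hup⟩⟩
  obtain ⟨ka, hka⟩ := Finset.card_eq_one.1 (E.kb (κ k) haT)
  have hka' : ka ∈ KB i K e ∧ κ ka = κ k := by
    have : ka ∈ (KB i K e).filter (fun x => κ x = κ k) := by
      rw [hka]
      exact mem_singleton_self _
    exact mem_filter.1 this
  have hkb := KB_bN H hir hq hg hka'.1
  have he1 := (bN_data H hir hq hg hkb.2).2.1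
  have hun : ∀ x ∈ KB i K e, κ x = κ k → x = ka := by
    intro x hx hxk
    have : x ∈ (KB i K e).filter (fun x => κ x = κ k) := mem_filter.2 ⟨hx, hxk⟩
    rw [hka] at this
    exact mem_singleton.1 this
  have hone : (e k = 1 ∧ e (tau k) = 0) ∨ (e k = 0 ∧ e (tau k) = 1) := by
    rcases p.only ka hkb.1 hka'.2 with h | h
    · left
      rw [h] at he1
      refine ⟨he1, ?_⟩
      by_contra hne
      have h2 := hun _ (m2 (by omega)) p.lab.symm
      rw [h] at h2
      rw [h2] at hk'
      omega
    · right
      rw [h] at he1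
      refine ⟨?_, he1⟩
      by_contra hne
      have h2 := hun _ (m1 (by omega)) rfl
      rw [h] at h2
      rw [← h2] at hk'
      omega
  refine ⟨hk.1, hk'.1, hk.2, hk'.2, hone, hlo, hup, ?_, ?_, hno, ?_⟩
  · intro x hx
    exact E.site x (hsx x (Or.inl hx)).1
  · intro x hx
    exact E.site x (hsx x (Or.inr hx)).1
  · intro x hx u hu hne
    by_contra h0
    have hxl := hsx x hx
    have hul := lev_uc H hu
    have hbu := E.upp H hir hq hg (by omega) (show 1 ≤ e u by omega)
    have hku : κ u = κ k := by
      rw [← hκ (mem_uc.1 hu) (by omega)]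
      exact hxl.2
    by_cases hK : u ∈ K
    · rcases p.only u hK hku with h | h
      · rw [h] at hul
        omega
      · exact hne h
    · have h1 := (up_simple hM H hir hg hL hd hbu hK (by
        intro z hz
        have := lev_uc H hz
        exact E.far H hir hq hg (by omega))).2.1
      rw [E.sk] at h1
      exact notMem_empty _ h1

/-- the free pair on the side of the double element -/
lemma EqC.side_y (E : EqC i κ K psi T e) (hL : AdmL i e) (hU : AdmU i e)
    (hd : Disjoint (AL i e) (AU i e)) {z0 y v : P} (S : SD i κ z0 y v) (he0 : 1 ≤ e z0)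
    (haT : κ y ∈ T) (hsg : ∀ v, lev v = i + 1 → (uc v).card = 1 → κ v = κ y → e v = 0) {k : P}
    (p : Pr i κ K k (tau k)) (hka : κ k = κ y) (hf : Disjoint (ns i k) (uc y))
    (hf' : Disjoint (ns i (tau k)) (uc y)) : SOK i tau e k := by
  classical
  have hk := mem_dbL'.1 p.hk
  have hk' := mem_dbU'.1 p.hk'
  have hly := S.ly H
  have hlz := S.lz
  have hns : ns i k = uc k := by unfold ns; rw [if_pos hk.1]
  have hns' : ns i (tau k) = dc (tau k) := by unfold ns; rw [if_neg (by omega)]
  rw [hns] at hf
  rw [hns'] at hf'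
  have hR0 : Rtd i κ e (κ y) z0 := Or.inr ⟨hlz, he0, ⟨y, S.my, hly, rfl⟩, hsg⟩
  -- excited elements of level i + 2 under the label are z0
  have key : ∀ w z : P, lev w = i + 2 → 1 ≤ e w → z ∈ uc w → κ z = κ y → z = y := by
    intro w z hw he hz hzk
    have hlz' := lev_uc H hz
    have hR : Rtd i κ e (κ y) w := Or.inr ⟨hw, he, ⟨z, hz, by omega, hzk⟩, hsg⟩
    have h1 := E.uniq (κ y) haT w z0 hR hR0
    rw [h1, S.huc, mem_insert, mem_singleton] at hz
    rcases hz with h | h
    · exact h
    · rw [h] at hzk
      exact absurd hzk.symm S.hk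
  refine E.sok H hir hq hg hκ hM hL hd p (by rw [hka]; exact haT) ?_ ?_
  · intro z hz
    by_contra hne
    have hl := lev_dc H hz
    have h1 := key z k (by omega) (by omega) (mem_uc.2 (mem_dc.1 hz)) hka
    rw [h1, disjoint_self, Finset.bot_eq_empty] at hf
    have := S.cy
    rw [hf, card_empty] at this
    omega
  · intro x hx z hz hne
    by_contra h0
    have hxl : lev x = i ∧ κ x = κ y := by
      rcases hx with h | h
      · have := lev_uc H h
        exact ⟨by omega, by rw [← hκ (mem_uc.1 h) (by omega), hka]⟩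
      · have := lev_dc H h
        exact ⟨by omega, by rw [hκ (mem_dc.1 h) (by omega), ← p.lab, hka]⟩
    have hzl := lev_dc H hz
    have hzk : κ z = κ y := by
      rw [hκ (mem_dc.1 hz) (by omega)]
      exact hxl.2
    have hxy : x ∉ uc y := by
      intro h
      rcases hx with h' | h'
      · exact disjoint_left.1 hf h' h
      · exact disjoint_left.1 hf' h' h
    have hc : (uc z).card = 2 := by
      have h1 := uc_card_le H z
      have h2 : 0 < (uc z).card := card_pos.2 (uc_nonempty H (by omega))
      by_contra h3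
      have := hsg z (by omega) (by omega) hzk
      omega
    have hb := E.low H hir hq hg (by omega) hc (show 1 ≤ e z by omega)
    by_cases hK : z ∈ K
    · rcases p.only z hK (by rw [hzk, hka]) with h | h
      · exact hne h
      · rw [h] at hzl
        omega
    · have hw : ¬ ∀ w ∈ dc z, e w = 0 := by
        intro hw
        have h1 := (low_simple hM H hq hU hd hb hK hw).1
        rw [E.sk] at h1
        exact notMem_empty _ h1
      push Not at hw
      obtain ⟨w, hw, hw0⟩ := hw
      have hwl := lev_dc H hw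
      have h1 := key w z (by omega) (by omega) (mem_uc.2 (mem_dc.1 hw)) hzk
      rw [h1] at hz
      exact hxy (mem_uc.2 (mem_dc.1 hz))

/-- the free pair on the side of the single element -/
lemma EqC.side_v (E : EqC i κ K psi T e) (hL : AdmL i e) (hU : AdmU i e)
    (hd : Disjoint (AL i e) (AU i e)) {v : P} (hv : lev v = i + 1) (hcv : (uc v).card = 1)
    (hev : 1 ≤ e v) (haT : κ v ∈ T) {k : P}
    (p : Pr i κ K k (tau k)) (hka : κ k = κ v) (hf : Disjoint (ns i k) (uc v))
    (hf' : Disjoint (ns i (tau k)) (uc v)) : SOK i tau e k := by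
  classical
  have hk := mem_dbL'.1 p.hk
  have hk' := mem_dbU'.1 p.hk'
  have hns : ns i k = uc k := by unfold ns; rw [if_pos hk.1]
  have hns' : ns i (tau k) = dc (tau k) := by unfold ns; rw [if_neg (by omega)]
  rw [hns] at hf
  rw [hns'] at hf'
  have hR0 : Rtd i κ e (κ v) v := Or.inl ⟨hv, hcv, rfl, hev⟩
  -- no excited element of level i + 2 under a double element of the label
  have key : ∀ w z : P, lev w = i + 2 → 1 ≤ e w → z ∈ uc w → κ z = κ v → (uc z).card = 2 →
      False := by
    intro w z hw he hz hzk hzc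
    have hlz' := lev_uc H hz
    have hwD : w ∈ DxD i e := mem_DxD.2 ⟨he, Or.inl (by omega)⟩
    obtain ⟨c, hc, hR⟩ := E.rel w hwD
    rcases hR with ⟨h1, -, -, -⟩ | ⟨h1, h2, ⟨q, h3, h4, h5⟩, h6⟩
    · omega
    · have hcv' : c ≠ κ v := by
        intro h
        have := h6 v hv hcv h.symm
        omega
      have hkk : κ z ≠ κ q := by
        rw [hzk, h5]
        exact fun h => hcv' h.symm
      have huc := uc_pair H hz h3 (fun h => hkk (by rw [h]))
      have e1 := exc_le H hL he (mem_uc.1 h3).le (by omega)
      rcases one_single H hκ hq h1 huc hkk with h | h | h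
      · have := h6 q h4 h.2 h5
        omega
      · omega
      · omega
  refine E.sok H hir hq hg hκ hM hL hd p (by rw [hka]; exact haT) ?_ ?_
  · intro z hz
    by_contra hne
    have hl := lev_dc H hz
    exact key z k (by omega) (by omega) (mem_uc.2 (mem_dc.1 hz)) hka hk.2
  · intro x hx z hz hne
    by_contra h0
    have hxl : lev x = i ∧ κ x = κ v := by
      rcases hx with h | h
      · have := lev_uc H h
        exact ⟨by omega, by rw [← hκ (mem_uc.1 h) (by omega), hka]⟩
      · have := lev_dc H h
        exact ⟨by omega, by rw [hκ (mem_dc.1 h) (by omega), ← p.lab, hka]⟩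
    have hzl := lev_dc H hz
    have hzk : κ z = κ v := by
      rw [hκ (mem_dc.1 hz) (by omega)]
      exact hxl.2
    have hxv : x ∉ uc v := by
      intro h
      rcases hx with h' | h'
      · exact disjoint_left.1 hf h' h
      · exact disjoint_left.1 hf' h' h
    have h1 := uc_card_le H z
    have h2 : 0 < (uc z).card := card_pos.2 (uc_nonempty H (by omega))
    rcases Nat.lt_or_ge (uc z).card 2 with hc | hc
    · have hR : Rtd i κ e (κ v) z := Or.inl ⟨by omega, by omega, hzk, by omega⟩
      have h3 := E.uniq (κ v) haT z v hR hR0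
      rw [h3] at hz
      exact hxv (mem_uc.2 (mem_dc.1 hz))
    · have hb := E.low H hir hq hg (by omega) (by omega) (show 1 ≤ e z by omega)
      by_cases hK : z ∈ K
      · rcases p.only z hK (by rw [hzk, hka]) with h | h
        · exact hne h
        · rw [h] at hzl
          omega
      · have hw : ¬ ∀ w ∈ dc z, e w = 0 := by
          intro hw
          have h1 := (low_simple hM H hq hU hd hb hK hw).1
          rw [E.sk] at h1
          exact notMem_empty _ h1
        push Not at hw
        obtain ⟨w, hw, hw0⟩ := hw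
        have hwl := lev_dc H hw
        exact key w z (by omega) (by omega) (mem_uc.2 (mem_dc.1 hw)) hzk (by omega)

end fin

end Pool.Agent.GaussPoset.Win.K2
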