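import Pool.Agent.W_448L1_h63.LaF

/-!
Components without a heavy join at the window j (MP_448cb3_co, case B): the strict inequality for
the configurations across the light joins.
-/

namespace Pool.Agent.GaussPoset.Win.K2

set_option linter.unusedSectionVars false

open Finset I2

universe u

variable {P : Type u} [Fintype P] [PartialOrder P] [DecidableEq P] {r i : ℕ} {e : P → ℕ}

variable {ι : Type*} [DecidableEq ι] {κ : P → ι} {K : Finset P} {psi tau : P → P}

variable {T T0 T1 : Finset ι}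

/-- the joins between the labels in `T0` and the other labels are light -/
def Lt (i : ℕ) (κ : P → ι) (K : Finset P) (T0 : Finset ι) : Prop :=
  ∀ z y v, SD i κ z y v → ¬ (κ y ∈ T0 ↔ κ v ∈ T0) →
    Fr i κ K (κ y) (uc y) ∨ Fr i κ K (κ v) (uc v)

/-- the partner in a pair -/
lemma Pr.uniq {k k' k'' : P} (h : Pr i κ K k k') (h' : Pr i κ K k k'') : k' = k'' := by
  rcases h.only k'' h'.kK' h'.lab.symm with h1 | h1
  · have h2 := mem_dbL'.1 h.hk
    have h3 := mem_dbU'.1 h'.hk'
    rw [h1] at h3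
    omega
  · exact h1.symm

/-- the map of the partners -/
lemma exists_tau (i : ℕ) (κ : P → ι) (K : Finset P) :
    ∃ tau : P → P, ∀ k k', Pr i κ K k k' → tau k = k' := by
  classical
  refine ⟨fun k => if h : ∃ k', Pr i κ K k k' then h.choose else k, ?_⟩
  intro k k' h
  have h1 : ∃ k', Pr i κ K k k' := ⟨k', h⟩
  simp only
  rw [dif_pos h1]
  exact h1.choose_spec.uniq h

section fin

variable (H : Gr P r) (hir : i ≤ r) (hq : NoQ P (i + 2)) (hg : ∀ m, m + 1 = i → Good P m)
include H hir hq hg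

lemma EqC.free_y (E : EqC i κ K psi T e) (hd : Disjoint (AL i e) (AU i e)) {z0 y ka : P}
    (hz : z0 ∈ dc y) (he0 : 1 ≤ e z0) (hly : lev y = i + 1) (hcy : (uc y).card = 2)
    (hey : 1 ≤ e y) (hka : ka ∈ KB i K e) : Disjoint (ns i ka) (uc y) := by
  have hyb := E.low H hir hq hg hly hcy hey
  have hne : ka ≠ y := by
    rintro rfl
    rw [mem_KB] at hka
    rcases hka.2 with ⟨-, h⟩ | ⟨h, -⟩
    · have := h z0 hz
      omega
    · have := (bU_data H hir hq hg h).1
      omega
  have hny : ns i y = uc y := by unfold ns; rw [if_pos hly]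
  have hyN : y ∈ bN i e := mem_union_left _ hyb
  rw [disjoint_left]
  intro q hq1 hq2
  have hl := lev_uc H hq2
  exact bad_disj H hir hq hg hd (KB_bN H hir hq hg hka).2 hyN hne hq1 (by rw [hny]; exact hq2)
    (E.site q (by omega))

lemma EqC.free_v (E : EqC i κ K psi T e) (hd : Disjoint (AL i e) (AU i e)) {v ka : P}
    (hlv : lev v = i + 1) (hcv : (uc v).card = 1) (hev : 1 ≤ e v) (hka : ka ∈ KB i K e) :
    Disjoint (ns i ka) (uc v) := by
  rw [disjoint_left]
  intro q hq1 hq2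
  have hl := lev_uc H hq2
  have hq0 := E.site q (by omega)
  have hb := (KB_bN H hir hq hg hka).2
  unfold bN at hb
  rcases mem_union.1 hb with h | h
  · obtain ⟨k1, k2, k3, k4, -, k6⟩ := bL_data H hir hq hg h
    have h1 := k6 q hq1 hq0
    have h2 : v ∈ kr dc e q := mem_kr.2 ⟨mem_dc.2 (mem_uc.1 hq2), by omega⟩
    rw [h1, mem_singleton] at h2
    rw [h2] at hcv
    omega
  · obtain ⟨k1, k2, k3, k4, -, -⟩ := bU_data H hir hq hg h
    rw [k4] at hq1
    have h4 : q ∈ AL i e := by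
      rw [NormD_mem_AL]
      exact ⟨by omega, v, mem_uc.1 hq2, by omega⟩
    have h5 : q ∈ AU i e := by
      rw [NormD_mem_AU]
      exact ⟨by omega, ka, mem_dc.1 hq1, by omega⟩
    exact disjoint_left.1 hd h4 h5

variable (hκ : Split (i + 1) κ) (hM : Mat P i K psi)
include hκ hM

/-- THE STRICT INEQUALITY across light joins -/
theorem light_T (hK : ∀ a ∈ T, Star i (cext (i + 1) κ a) K)
    (hs : ∀ x, lev x ≤ i + 1 → 1 ≤ e x → κ x ∈ T) (hT : ∀ a ∈ T, Tou i κ e a)
    (hL : AdmL i e) (hU : AdmU i e) (hd : Disjoint (AL i e) (AU i e)) (hLt : Lt i κ K T0)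
    (htau : ∀ k k', Pr i κ K k k' → tau k = k') {z0 : P}
    (hz0 : z0 ∉ cuni (i + 1) (fun x => decide (κ x ∈ T0))) (he0 : 1 ≤ e z0) :
    3 * ((AL i e).card + (AU i e).card) + 1 ≤
      2 * (∑ x, e x) + 3 * (pL i e + pU i e) + 3 * (Act2 i κ K psi tau e).card := by
  classical
  by_cases hn : 3 * ((AL i e).card + (AU i e).card) + 1 ≤
      2 * (∑ x, e x) + 3 * (pL i e + pU i e) + 3 * (SK i K psi e).card
  · have h1 : (SK i K psi e).card ≤ (Act2 i κ K psi tau e).card :=
      card_le_card subset_union_left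
    omega
  have E := eqC_of H hir hq hg hκ hM hK hs hT hL hU hd hn
  have h0 := slope_T H hir hq hg hκ hM hK hs hL hU hd (δ := 0)
    (by have := card_touch H hκ hq hL hT; omega)
  have hsk := E.sk
  -- it is enough to find a free pair
  suffices hk : ∃ k, k ∈ StK i κ K tau e by
    obtain ⟨k, hk⟩ := hk
    have h1 : 0 < (Act2 i κ K psi tau e).card :=
      card_pos.2 ⟨k, mem_union_right _ hk⟩
    rw [hsk, card_empty] at h0
    omega
  have hspl : Split (i + 1) (fun x => decide (κ x ∈ T0)) := by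
    intro x y hxy hl
    change decide (κ x ∈ T0) = decide (κ y ∈ T0)
    rw [hκ hxy hl]
  have hl0 := (two_up H hspl hz0).1
  have hD : z0 ∈ DxD i e := mem_DxD.2 ⟨he0, Or.inl (by omega)⟩
  obtain ⟨a, haT, hR⟩ := E.rel z0 hD
  rcases hR with ⟨h1, -, -, -⟩ | ⟨hlz, -, ⟨p, hp, hlp, hpa⟩, hsg⟩
  · omega
  obtain ⟨p1, p2, hk12, huc⟩ := So.two_labels H hspl hz0 (by omega)
  obtain ⟨v, hv, hkv⟩ : ∃ v, v ∈ uc z0 ∧ ¬ (κ p ∈ T0 ↔ κ v ∈ T0) := by
    have h7 := hp
    rw [huc, mem_insert, mem_singleton] at h7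
    rcases h7 with h7 | h7
    · refine ⟨p2, by rw [huc]; exact mem_insert_of_mem (mem_singleton_self _), ?_⟩
      intro h
      apply hk12
      change decide (κ p1 ∈ T0) = decide (κ p2 ∈ T0)
      rw [decide_eq_decide, ← h7]
      exact h
    · refine ⟨p1, by rw [huc]; exact mem_insert_self _ _, ?_⟩
      intro h
      apply hk12
      change decide (κ p1 ∈ T0) = decide (κ p2 ∈ T0)
      rw [decide_eq_decide, ← h7]
      exact h.symm
  have hkk : κ p ≠ κ v := fun h => hkv (by rw [h])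
  have hucz := uc_pair H hp hv (fun h => hkk (by rw [h]))
  have e1 := exc_le H hL he0 (mem_uc.1 hp).le (by omega)
  have hlv := lev_uc H hv
  have e2 := exc_le H hL he0 (mem_uc.1 hv).le (by omega)
  have hdv : (uc p).card = 2 ∧ (uc v).card = 1 := by
    rcases one_single H hκ hq hlz hucz hkk with h | h | h
    · exact h
    · have := hsg p hlp h.1 hpa
      omega
    · have := hsg p hlp h.1 hpa
      omega
  have S : SD i κ z0 p v := ⟨hlz, hucz, hkk, hdv.1, hdv.2⟩
  have hvT : κ v ∈ T := hs v (by omega) e2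
  have kbx : ∀ b ∈ T, ∃ ka, ka ∈ KB i K e ∧ κ ka = b := by
    intro b hb
    obtain ⟨ka, hka⟩ := Finset.card_eq_one.1 (E.kb b hb)
    refine ⟨ka, ?_⟩
    have : ka ∈ (KB i K e).filter (fun x => κ x = b) := by
      rw [hka]
      exact mem_singleton_self _
    exact mem_filter.1 this
  rcases hLt z0 p v S hkv with hf | hf
  · rcases hf with hf | ⟨k, k', pk, hka, f1, f2⟩
    · exfalso
      obtain ⟨ka, hka, hkb⟩ := kbx a haT
      refine hf ka (mem_KB.1 hka).1 (by rw [hkb, hpa]) ?_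
      exact E.free_y H hir hq hg hd (mem_dc.2 (mem_uc.1 hp)) he0 hlp hdv.1 e1 hka
    · have h3 := htau k k' pk
      rw [← h3] at pk f2
      refine ⟨k, mem_StK.2 ⟨pk.kK, pk, ?_⟩⟩
      exact E.side_y H hir hq hg hκ hM hL hU hd S he0 (by rw [hpa]; exact haT)
        (fun w h1 h2 h3 => hsg w h1 h2 (by rw [h3, hpa])) pk hka f1 f2
  · rcases hf with hf | ⟨k, k', pk, hka, f1, f2⟩
    · exfalso
      obtain ⟨ka, hka, hkb⟩ := kbx (κ v) hvT
      refine hf ka (mem_KB.1 hka).1 hkb ?_
      exact E.free_v H hir hq hg hd (by omega) hdv.2 e2 hka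
    · have h3 := htau k k' pk
      rw [← h3] at pk f2
      refine ⟨k, mem_StK.2 ⟨pk.kK, pk, ?_⟩⟩
      exact E.side_v H hir hq hg hκ hM hL hU hd (by omega) hdv.2 e2 hvT pk hka f1 f2

/-- the strict bound for the configurations across light joins -/
theorem XT_Ws3_light (hK : ∀ a ∈ T, Star i (cext (i + 1) κ a) K)
    (h01 : T0 ∪ T1 = univ.image κ) (hLt : Lt i κ K T0) :
    Ws3 (st i (eT (i + 1) κ T)).card (XT i κ T (Cr2 (i + 1) κ T0 T1)) := by
  classical
  obtain ⟨tau, htau⟩ := exists_tau i κ K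
  have hcr : ∀ z, z ∉ eT (i + 1) κ T0 → z ∉ eT (i + 1) κ T1 →
      z ∉ cuni (i + 1) (fun x => decide (κ x ∈ T0)) := by
    intro z z0 z1 h
    unfold cuni at h
    rw [mem_biUnion] at h
    obtain ⟨b, -, hb⟩ := h
    rw [mem_cext] at hb
    rcases b with _ | _
    · apply z1
      rw [mem_eT]
      intro y hy hl
      have h1 := hb y hy hl
      rw [decide_eq_false_iff_not] at h1
      have h2 : κ y ∈ T0 ∪ T1 := by
        rw [h01]
        exact mem_image_of_mem κ (mem_univ y)
      exact (mem_union.1 h2).resolve_left h1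
    · apply z0
      rw [mem_eT]
      intro y hy hl
      have h1 := hb y hy hl
      rw [decide_eq_true_iff] at h1
      exact h1
  intro n
  constructor
  · refine XT_dvd2 (tau := tau) hM H hκ (Cr2_congr h01) ?_
    intro e h1 h2 h3 h4 hL hU hd
    have hT : ∀ a ∈ T, Tou i κ e a := by
      intro a ha
      rw [← h3, mem_Tch] at ha
      obtain ⟨z, z1, z2, z3⟩ := ha
      exact ⟨z, z2, z1, z3⟩
    have hs : ∀ x, lev x ≤ i + 1 → 1 ≤ e x → κ x ∈ T := by
      intro x hx h0
      have h4 : x ∈ eT (i + 1) κ T := by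
        by_contra h5
        have := h2 x h5
        omega
      exact mem_eT.1 h4 x le_rfl hx
    obtain ⟨z, z0, z1, z2⟩ := h4
    have h5 := light_T H hir hq hg hκ hM hK hs hT hL hU hd hLt htau (hcr z z1 z2) z0
    rw [h1] at h5
    omega
  · rintro rfl
    unfold XT
    rw [coeff_ZQ]
    refine Finset.sum_eq_zero fun e he => ?_
    exfalso
    simp only [Finset.mem_filter, mem_pa'] at he
    obtain ⟨⟨h1, -⟩, -, z, z0, -, -⟩ := he
    rw [Finset.sum_eq_zero_iff] at h1
    have := h1 z (mem_univ z)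
    omega

end fin

/-- THE EDGE POLYNOMIAL of a set of labels with light joins to the other labels -/
theorem side_unit_light (H : Gr P r) (hir : i ≤ r) (hq : NoQ P (i + 2))
    (hg : ∀ m, m + 1 = i → Good P m) (hκ : Split (i + 1) κ) (hM : Mat P i K psi)
    (hK : K ⊆ dbL P i ∪ dbU P i) (hs : ∀ a, Star i (cext (i + 1) κ a) K)
    (h01 : T0 ∪ T1 = univ.image κ) (hd : Disjoint T0 T1) (hLt : Lt i κ K T0) :
    ini3 (st i (eT (i + 1) κ T0)).card (ZS i (eT (i + 1) κ T0)) = 1 :=
  side_unit H hir hκ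
    (fun T _ _ => XT_Wt3 H hir hq hg hκ hM (fun a _ => hs a) (fun _ _ _ => Iff.rfl))
    (fun a _ => own_Wt3 H hir hq hg hκ hM hK (hs a)) h01 hd
    (fun T _ _ => XT_Ws3_light H hir hq hg hκ hM (fun a _ => hs a) h01 hLt)

end Pool.Agent.GaussPoset.Win.K2
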