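import Pool.Agent.W_448L1_h63.LaG
import Pool.Agent.W_448pb_h63.PbD

/-!
Components without a heavy join at the window j (MP_448cb3_co, case B): the value (3,2) vanishes,
if there is no component with two stars.
-/

namespace Pool.Agent.GaussPoset.EK

set_option linter.unusedSectionVars false

open Finset Win St Polynomial Wd

universe u

variable {P : Type u} [Fintype P] [PartialOrder P] [DecidableEq P] {r i j : ℕ}

variable {ι : Type*} [DecidableEq ι] {κ : P → ι}

variable {K : Finset P} {psi : P → P}

/-- unmatched elements with the same sites are on the same side of the window -/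
lemma Red.sgn_ns (R : Red P i K psi) {x y : P} (hx : x ∈ K) (hy : y ∈ K)
    (hxy : ns i x = ns i y) : sgn i x = sgn i y := by
  rcases mem_union.1 (R.sub hx) with h1 | h1 <;> rcases mem_union.1 (R.sub hy) with h2 | h2
  · rw [sgn_low h1, sgn_low h2]
  · rw [ns_L h1, ns_U h2] at hxy
    exact absurd hxy (R.inv hx hy h1 h2)
  · rw [ns_U h1, ns_L h2] at hxy
    exact absurd hxy.symm (R.inv hy hx h2 h1)
  · rw [sgn_upp h1, sgn_upp h2]

/-- THE UNMATCHED ELEMENTS AWAY FROM `F`, if their signed number is zero -/
theorem Red.fr_sa (R : Red P i K psi) (H : Gr P r) (hi : i ≤ r) (hκ : Split (i + 1) κ) {a : ι}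
    (hs : Small i κ a) {F : Finset P} (hF : F ⊆ st i (cext (i + 1) κ a)) (hne : F.Nonempty)
    (h : sa i κ K F a = 0) : K2.Fr i κ K a F := by
  classical
  by_cases h0 : ∀ k ∈ K, κ k = a → ¬ Disjoint (ns i k) F
  · exact Or.inl h0
  right
  push Not at h0
  obtain ⟨k0, hk0, ha0, hd0⟩ := h0
  rw [sa_eq] at h
  obtain ⟨S, hS⟩ : ∃ S : Finset P, S = K.filter (fun x => κ x = a ∧ Disjoint (ns i x) F) :=
    ⟨_, rfl⟩
  have mS : ∀ {x : P}, x ∈ S ↔ x ∈ K ∧ κ x = a ∧ Disjoint (ns i x) F := by
    intro x
    rw [hS, mem_filter]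
  rw [← hS] at h
  have hk0S : k0 ∈ S := mS.2 ⟨hk0, ha0, hd0⟩
  -- an element of each sign
  have hpos : ∃ k ∈ S, sgn i k = 1 := by
    by_contra hc
    push Not at hc
    have h1 : ∀ x ∈ S, sgn i x = -1 := fun x hx =>
      (sgn_cases (R.sub (mS.1 hx).1)).resolve_left (hc x hx)
    rw [Finset.sum_congr rfl h1, Finset.sum_const, nsmul_eq_mul] at h
    have h2 := card_pos.2 ⟨k0, hk0S⟩
    omega
  have hneg : ∃ k ∈ S, sgn i k = -1 := by
    by_contra hc
    push Not at hc
    have h1 : ∀ x ∈ S, sgn i x = 1 := fun x hx =>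
      (sgn_cases (R.sub (mS.1 hx).1)).resolve_right (hc x hx)
    rw [Finset.sum_congr rfl h1, Finset.sum_const, nsmul_eq_mul] at h
    have h2 := card_pos.2 ⟨k0, hk0S⟩
    omega
  obtain ⟨k1, h1S, h1⟩ := hpos
  obtain ⟨k2, h2S, h2⟩ := hneg
  obtain ⟨k1K, k1a, k1d⟩ := mS.1 h1S
  obtain ⟨k2K, k2a, k2d⟩ := mS.1 h2S
  have hk1 : k1 ∈ dbL P i := by
    rcases mem_union.1 (R.sub k1K) with h3 | h3
    · exact h3
    · rw [sgn_upp h3] at h1
      omega
  have hk2 : k2 ∈ dbU P i := by
    rcases mem_union.1 (R.sub k2K) with h3 | h3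
    · rw [sgn_low h3] at h2
      omega
    · exact h3
  have hne12 : k1 ≠ k2 := by
    rintro rfl
    omega
  -- exactly two unmatched elements
  have hcard : (K.filter (fun x => κ x = a)).card ≤ 2 := by
    have hcc := R.card_comp H hκ a
    rcases hs with hs | hs
    · exfalso
      -- three sites: the elements away from `F` have the same sites
      have e1 := ns_sites H hκ (R.sub k1K) k1a
      have e2 := ns_sites H hκ (R.sub k2K) k2a
      have c1 := ns_card (R.sub k1K)
      have c2 := ns_card (R.sub k2K)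
      have hF1 := card_pos.2 hne
      have u1 := card_le_card (union_subset e1 hF)
      have u2 := card_le_card (union_subset (union_subset e1 e2) hF)
      rw [card_union_of_disjoint k1d] at u1
      rw [card_union_of_disjoint (disjoint_union_left.2 ⟨k1d, k2d⟩)] at u2
      have h3 : ns i k1 = ns i k2 := by
        have h4 : (ns i k1 ∪ ns i k2).card ≤ 2 := by omega
        have h5 : ns i k1 = ns i k1 ∪ ns i k2 :=
          eq_of_subset_of_card_le subset_union_left (by omega)
        have h6 : ns i k2 = ns i k1 ∪ ns i k2 :=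
          eq_of_subset_of_card_le subset_union_right (by omega)
        rw [h5]
        exact h6.symm
      have := R.sgn_ns k1K k2K h3
      omega
    · have h3 : ((K.filter (fun x => κ x = a)).card : ℤ) ≤ 2 := by
        rw [hcc]
        exact hs
      exact_mod_cast h3
  refine ⟨k1, k2, ⟨hk1, k1K, hk2, k2K, by rw [k1a, k2a], ?_⟩, k1a, k1d, k2d⟩
  intro x hx hxa
  by_contra hc
  push Not at hc
  have h3 : ({x, k1, k2} : Finset P) ⊆ K.filter (fun x => κ x = a) := by
    intro y hy
    rw [mem_insert, mem_insert, mem_singleton] at hy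
    rw [mem_filter]
    rcases hy with rfl | rfl | rfl
    · exact ⟨hx, by rw [hxa, k1a]⟩
    · exact ⟨k1K, k1a⟩
    · exact ⟨k2K, k2a⟩
  have h4 := card_le_card h3
  rw [card_insert_of_notMem, card_pair hne12] at h4
  · omega
  · rw [mem_insert, mem_singleton, not_or]
    exact hc

section main

variable (h : NJ P r j) (hj : 2 ≤ j) (R : Red P j K psi) (h6 : No6 P j)

include h hj R h6

/-- THE VALUES (3,2) AND (6,4) OF A COMPONENT WHOSE JOINS ARE ALL LIGHT, without components with
two stars -/
theorem NJ.light_zero (t : Tops P)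
    (hl : ∀ z y v, K2.SD j (topOf : P → Tops P) z y v → (topOf y = t ∨ topOf v = t) →
      sa j (topOf : P → Tops P) K (uc y) (topOf y) *
        sa j (topOf : P → Tops P) K (uc v) (topOf v) = 0) :
    I2.w3 (I2.bb j (j + 1) (topOf : P → Tops P) t)
      (I2.VV j (j + 1) (topOf : P → Tops P) t) = 0 := by
  classical
  have hjr : j ≤ r := by have := h.hr; omega
  have hsm := NJ.small_all h hj h6
  have hst : ∀ t : Tops P, K2.Star j (cext (j + 1) (topOf : P → Tops P) t) K :=
    fun t => K2.star_small h.g.H hjr h.split R (hsm t)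
  have himg : univ.image (topOf : P → Tops P) = (univ : Finset (Tops P)) := by
    ext t
    simp only [mem_univ, iff_true]
    refine mem_image.2 ⟨(t : P), mem_univ _, ?_⟩
    exact Subtype.ext (Hul.top_unique (h.nj (by have := t.2; omega)) (topOf (t : P)).2 t.2
      (le_topOf (t : P)) le_rfl)
  have hsite : ∀ {x w : P}, lev w = j + 1 → x ∈ uc w →
      x ∈ st j (cext (j + 1) (topOf : P → Tops P) (topOf w)) := by
    intro x w hw hx
    have hl := lev_uc h.g.H hx
    rw [mem_sites h.split]
    exact ⟨by omega, (h.split (mem_uc.1 hx) (by omega)).symm⟩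
  have hLt : K2.Lt j (topOf : P → Tops P) K {t} := by
    intro z y v S hne
    have ht : topOf y = t ∨ topOf v = t := by
      by_contra hc
      push Not at hc
      apply hne
      rw [mem_singleton, mem_singleton]
      exact ⟨fun h => absurd h hc.1, fun h => absurd h hc.2⟩
    have hly := S.ly h.g.H
    have hlv := S.lv' h.g.H
    rcases mul_eq_zero.1 (hl z y v S ht) with h1 | h1
    · left
      refine R.fr_sa h.g.H hjr h.split (hsm _) (fun x hx => hsite hly hx) ?_ h1
      rw [← card_pos, S.cy]
      norm_num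
    · right
      refine R.fr_sa h.g.H hjr h.split (hsm _) (fun x hx => hsite hlv hx) ?_ h1
      rw [← card_pos, S.cv]
      norm_num
  have h1 := K2.side_unit_light h.g.H hjr (NJ.noQ h hj) (fun m hm => h.g.good m (by omega))
    h.split R.mat R.sub hst (T0 := {t}) (T1 := univ.erase t)
    (by rw [himg]; ext x; simp only [mem_union, mem_singleton, mem_erase, mem_univ]; tauto)
    (by rw [disjoint_singleton_left]; exact notMem_erase _ _) hLt
  have h2 : K2.eT (j + 1) (topOf : P → Tops P) {t} = cext (j + 1) (topOf : P → Tops P) t := by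
    ext x
    rw [K2.mem_eT, mem_cext]
    simp only [mem_singleton]
  rw [h2] at h1
  exact K2.w3_of_ini h1

end main

end Pool.Agent.GaussPoset.EK
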